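import Pool.Agent.K1H24.ND.Seq

/-!
# Late members of `Sq⁰`-families are never hit by a differential

`Ext s` is the Adams `s`-line, the cohomology of the cobar complex `Cob` of the mod 2 dual Steenrod
algebra, `Z s` its cocycles, `cl` the class of a cocycle, `IsHom s t` homogeneity of internal degree
`t`; `Sq0`, `h0`, `Sq1` are `Sq⁰`, multiplication by `h₀` and `Sq¹` (files
`Pool/Agent/W624/NDst.lean`, `NDst3.lean`). `AdamsType` (file `Pool/Agent/K1H24/ND/Seq.lean`) is a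
spectral sequence with `E₂ = Ext` and `d_r` of bidegree `(r, r - 1)`: `Zero r s t x` says that `x`
lives to `E_r` and is zero there, `Diff r s t x y` that `d_r [x] = [y]` in `E_r`; `Permanent` means
`d_r x = 0` for all `r`, `Survives` means `Permanent` and non-zero in every `E_r`.

1. For all `p` and `m ≥ 1` the group `Ext^{p,t}` vanishes for all `t ≡ -m mod 2 ^ J`, `J = J(p, m)`.
2. A class `y ∈ E₂^{s,t}` with `t ≡ c mod 2 ^ J`, `J = J(s, c)`, is hit only by the differentials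
   `d_2, ..., d_{c+1}`: if it is zero in some `E_r`, `r ≥ c + 2`, it is zero in `E_{c+2}`.
3. In particular (`c = 0`) there is `J = J(s)` such that for every `Sq⁰`-family `x_j` on the
   `s`-line no differential hits a member `x_j` with `j ≥ J`: such an `x_j` survives to `E_∞` if
   and only if `x_j ≠ 0` and `x_j` is a permanent cycle.
4. With Bruner's formula for `d₂`: for `j ≥ J`, `x_j` survives if and only if `x_j ≠ 0`,
   `(Sq⁰)^J Sq¹ x = 0` and all `d_r`, `r ≥ 3`, vanish on `x_j`.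
-/

set_option autoImplicit false

namespace Pool.Agent.Results.MP_701abf_gt.NeverHit

open Pool.Agent.W624.NS Pool.Agent.K1H24.ND

/-- the criterion for `d₂` in the form needed here -/
theorem d2_iff (s : ℕ) : ∃ J0 : ℕ, ∀ J, J0 ≤ J → ∀ S : AdamsType,
    (∀ (n t : ℕ) (x : Z n), Even t → IsHom n t x.1 → ∀ y : Ext (n + 2),
      S.Diff 2 n (2 * t) (Sq0 n (cl x)) y ↔ y = h0 (n + 1) (cl (Sq1 n x))) →
    ∀ (t : ℕ) (x : Z s), IsHom s t x.1 → ∀ j, J ≤ j →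
      (S.Diff 2 s (2 ^ j * t) ((Sq0 s)^[j] (cl x)) 0 ↔ (Sq0 (s + 1))^[J] (cl (Sq1 s x)) = 0) := by
  obtain ⟨J0, hJ0⟩ := h0_iter s
  obtain ⟨r, hr⟩ := nil_iter s
  have up : ∀ (y : Ext (s + 1)) (a b : ℕ), a ≤ b → (Sq0 (s + 1))^[a] y = 0 →
      (Sq0 (s + 1))^[b] y = 0 := by
    intro y a b hab h
    obtain ⟨c, rfl⟩ := Nat.exists_eq_add_of_le hab
    rw [add_comm a c, Function.iterate_add_apply, h]
    exact Sq0_iter_zero _ _
  refine ⟨J0 + r + 2, fun J hJ S hd t x hx j hj => ?_⟩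
  obtain ⟨k, rfl⟩ : ∃ k, j = k + 2 := ⟨j - 2, by omega⟩
  have hev : Even (2 ^ (k + 1) * t) := by
    rw [pow_succ, mul_comm (2 ^ k) 2, mul_assoc]
    exact even_two_mul _
  have hw := isHom_iter x hx (k + 1)
  have hf : S.Diff 2 s (2 ^ (k + 2) * t) ((Sq0 s)^[k + 2] (cl x)) 0 ↔
      0 = h0 (s + 1) ((Sq0 (s + 1))^[k + 1] (cl (Sq1 s x))) := by
    rw [show k + 2 = (k + 1) + 1 from rfl, Function.iterate_succ_apply', Sq0_iter,
      show 2 ^ (k + 1 + 1) * t = 2 * (2 ^ (k + 1) * t) by ring, hd s _ _ hev hw, Sq1_iter,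
      Sq0_iter]
  rw [hf]
  constructor
  · intro h
    have h1 := hJ0 (cl (Sq1 s x)) k (by omega) h.symm
    exact up _ r _ (by omega) (hr _ _ h1)
  · intro h
    have h1 := hr _ _ h
    rw [up _ r (k + 1) (by omega) h1, h0_zero]

/-- **Late members of `Sq⁰`-families are never hit.** -/
theorem result :
    (∀ p m : ℕ, 1 ≤ m → ∃ J : ℕ, ∀ t : ℕ, 2 ^ J ∣ t + m → ∀ x : Z p, IsHom p t x.1 → cl x = 0) ∧
    (∀ s c : ℕ, ∃ J : ℕ, ∀ (S : AdamsType) (t : ℕ), t ≡ c [MOD 2 ^ J] → ∀ (y : Ext s) (r : ℕ),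
      c + 2 ≤ r → S.Zero r s t y → S.Zero (c + 2) s t y) ∧
    (∀ s : ℕ, ∃ J : ℕ, ∀ S : AdamsType,
      (∀ (t : ℕ) (x : Z s), IsHom s t x.1 → ∀ j, J ≤ j →
        (S.Survives s (2 ^ j * t) ((Sq0 s)^[j] (cl x)) ↔
          (Sq0 s)^[j] (cl x) ≠ 0 ∧ S.Permanent s (2 ^ j * t) ((Sq0 s)^[j] (cl x)))) ∧
      ((∀ (n t : ℕ) (x : Z n), Even t → IsHom n t x.1 → ∀ y : Ext (n + 2),
          S.Diff 2 n (2 * t) (Sq0 n (cl x)) y ↔ y = h0 (n + 1) (cl (Sq1 n x))) →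
        ∀ (t : ℕ) (x : Z s), IsHom s t x.1 → ∀ j, J ≤ j →
          (S.Survives s (2 ^ j * t) ((Sq0 s)^[j] (cl x)) ↔
            (Sq0 s)^[j] (cl x) ≠ 0 ∧ (Sq0 (s + 1))^[J] (cl (Sq1 s x)) = 0 ∧
              ∀ r, 3 ≤ r → S.Diff r s (2 ^ j * t) ((Sq0 s)^[j] (cl x)) 0))) := by
  refine ⟨fun p m hm => vanish p m hm, hits, fun s => ?_⟩
  obtain ⟨J1, hJ1⟩ := never_hit s
  obtain ⟨J2, hJ2⟩ := d2_iff s
  have hA : ∀ (S : AdamsType) (t j : ℕ), J1 ≤ j → ∀ y : Ext s,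
      (S.Survives s (2 ^ j * t) y ↔ y ≠ 0 ∧ S.Permanent s (2 ^ j * t) y) := by
    intro S t j hj y
    constructor
    · rintro ⟨h1, h2⟩
      exact ⟨fun h0 => h2 2 le_rfl ((S.zero_two _ _ _).mpr h0), h1⟩
    · rintro ⟨h1, h2⟩
      exact ⟨h2, fun q hq h => h1 (hJ1 S t j hj y q hq h)⟩
  refine ⟨J1 + J2, fun S => ⟨fun t x hx j hj => hA S t j (by omega) _, ?_⟩⟩
  intro hd t x hx j hj
  rw [hA S t j (by omega), ← hJ2 (J1 + J2) (by omega) S hd t x hx j hj]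
  constructor
  · rintro ⟨h1, h2⟩
    exact ⟨h1, h2 2 le_rfl, fun q hq => h2 q (by omega)⟩
  · rintro ⟨h1, h2, h3⟩
    refine ⟨h1, fun q hq => ?_⟩
    rcases Nat.eq_or_lt_of_le hq with h | h
    · subst h; exact h2
    · exact h3 q h

end Pool.Agent.Results.MP_701abf_gt.NeverHit
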